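import Pool.Agent.Helper86_X2.LqcCore
import Pool.Agent.Helper67_PP.Rkr
import Pool.Agent.Helper63_PP.Smt
import Pool.Agent.Helper43_PP.Smo
import Pool.Agent.Helper43_PP.Can
import Pool.Agent.Helper47_PP.Fxu
import Pool.Agent.Helper47_PP.Osi
import Pool.Agent.Helper26_PP.Cux
import Pool.Agent.Helper26_PP.Gue
import Pool.Agent.Helper94_PP.Nch
import Pool.Agent.Helper20_PP.Nls
import Pool.Agent.Helper60_PP.Lqr
import Pool.Agent.Helper75_PP.Lqm
import Pool.Agent.Helper65_PP.Fis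
import Pool.Agent.Helper50_PP.Ffa
import Pool.Agent.Helper74_PP.Brt
import Pool.Agent.Helper66_PP.Pos1

/-!
# AWC, part X2, module LQC
-/

noncomputable section

namespace Pool.Agent.PP.X2.H86

open Pool.Agent.PP

theorem lqc : LqcStmt :=
  lqc_core
    (H67.rkr H63.smt H43.smo H20.brm H43.can H47F.fxu Pool.Agent.Helper26_PP.cux
      (Pool.Agent.Helper26_PP.gue H94.nch H20.nls))
    (H60L.lqr H75.lqm (H65.fis H50.fld)) H66.ps1 H20.brm Pool.Agent.Helper26_PP.cux
    (H47O.osi H63.sma H74.rgl)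

end Pool.Agent.PP.X2.H86
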